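import Pool.Agent.T2h8.PT.Fin
import Pool.Agent.T2h8.PT.T_ACC
import Pool.Agent.T2h8.PT.T_TIM
import Pool.Agent.T2h8.PT.T_LEG
import Pool.Agent.T2h8.PT.T_SCH
import Pool.Agent.T2h8.PT.T_FWD
import Pool.Agent.T2h8.PT.T_ENT
import Pool.Agent.T2h8.PT.T_BLK
import Pool.Agent.T2h8.PT.T_VAR
import Pool.Agent.T2h8.PT.T_BACK
import Pool.Agent.T2h8.PT.T_CT
import Pool.Agent.T2h8.PT.T_POLY

/-!
# MP_ce2681_lc, Q2: foremost coverage of periodic temporal trees, with the period in the input

The problem is NP-complete for trees of maximum degree three: it is NP-hard already for combs (a
path with one pendant vertex at every vertex) in which the edges of the path are present at all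
times.  Consequently an algorithm as asked for in Q2 exists if and only if P = NP, for all trees, for
trees of maximum degree at most three, and for combs.

The reduction is from 3SAT.  The pendant vertices are jobs: the variables, the clauses and the
blockers.  Time is divided into regions, one for each literal, and the regions into blocks which are
long enough to walk from any vertex of the spine to any other one.  At the end of each region the
agent has to visit the blocker of the region: its edge is present for two steps only, and for no
further step in the whole period.  The edge of a variable is present only at the beginning and near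
the end of its two regions, so the agent is enclosed in the pendant vertex of the variable during
one of them; this literal is false.  The edge of a clause is present in the regions of the three
literals of the clause only, so the clause is visited in the region of a true literal.
-/

set_option autoImplicit false

namespace Pool.Agent.Results.MP_ce2681_lc.PeriodInInput

open Pool.Agent.NPC Pool.Agent.H801.Pt Pool.Agent.T2h8.PT

/-- **Single-agent DMVP on periodic temporal trees with the period in the input.**

* The decision problem (input: `p`, a periodic temporal tree `T` with period `p`, a time `t`; is the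
  cover time at most `t`?) is in `NP`.
* It is `NP`-hard for trees of maximum degree at most three, even for combs: the tree consists of a
  path, whose edges are present at all times and whose first vertex is the starting vertex, and one
  pendant vertex at every vertex of the path.
* The following are equivalent: there is an algorithm, polynomial in `n` and `p`, which computes the
  cover time of all periodic temporal trees (Q2); there is one for trees of maximum degree at most
  three; there is one for combs; `P = NP`. -/
theorem result :
    InNPP Dall ∧ NPHardP Dmvp ∧ NPHardP Dcomb ∧
    List.TFAE [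
      ∃ F : List Bool → List Bool, PolyTime F ∧ ∀ (p : ℕ) (T : Tr), 1 ≤ p → Legal p T →
        F (bits (p, T)) = bits (coverTime p T),
      ∃ F : List Bool → List Bool, PolyTime F ∧ ∀ (p : ℕ) (T : Tr), 1 ≤ p → Legal p T →
        MaxDeg 3 T → F (bits (p, T)) = bits (coverTime p T),
      ∃ F : List Bool → List Bool, PolyTime F ∧ ∀ (p : ℕ) (T : Tr), 1 ≤ p → Legal p T →
        IsComb p T → MaxDeg 3 T → F (bits (p, T)) = bits (coverTime p T),
      ∀ L : Set (List Bool), InNP L → InP L] := by
  have hENT := t_ENT t_ACC
  have hBLK := t_BLK t_TIM hENT
  have hVAR := t_VAR t_TIM hENT hBLK
  have h := hardOk t_ACC (t_LEG t_ACC t_TIM) (t_BACK t_TIM hENT hVAR) (t_FWD t_ACC t_TIM t_SCH)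
    t_CT t_POLY
  refine ⟨np_all, hardDmvp h, hardDcomb h, ?_⟩
  tfae_have 1 → 2 := by
    rintro ⟨F, hF, hF'⟩
    exact ⟨F, hF, fun p T hp hT _ => hF' p T hp hT⟩
  tfae_have 2 → 3 := by
    rintro ⟨F, hF, hF'⟩
    exact ⟨F, hF, fun p T hp hT _ hd => hF' p T hp hT hd⟩
  tfae_have 3 → 4 := by
    rintro ⟨F, hF, hF'⟩
    exact collapse h hF hF'
  tfae_have 4 → 1 := search
  tfae_finish

end Pool.Agent.Results.MP_ce2681_lc.PeriodInInput
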